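import Pool.Agent.NPC.Defs
import Pool.Agent.Helper30_Sph.Defs
import Pool.Agent.Helper30_NPC.All

/-!
# The Singer conjecture for closed nonpositively curved cubical manifolds

Let `M` be a closed manifold of dimension `n` which is a cube complex of nonpositive curvature, that
is, the link of every vertex is a flag complex (Gromov's condition); then `M` is aspherical. Its
universal covering `X` is a CAT(0) cube complex on which the fundamental group `G` of `M` acts
freely with compact quotient, and the links of the vertices are generalized homology spheres of
dimension `n - 1`.  After one cubical subdivision of `M` the group `G` preserves the sides of all
hyperplanes.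

We prove the Singer conjecture for `M`, in all dimensions: the reduced square-summable homology of
`X` vanishes in all degrees different from `n / 2`.  There is no other hypothesis; in particular `G`
need not be residually finite or virtually special.
-/

namespace Pool.Agent.Results.MP_f80465_gt.CubicalManifolds

open Pool.Agent.NPC Pool.Agent.Sph

/-- Let `X` be a CAT(0) cube complex with finitely many edges at every vertex, such that the link of
every vertex is a generalized homology sphere of dimension `n - 1` over the field with two elements.
Let `G` be a group that acts on `X` freely, with finitely many orbits of vertices, and without
inversions of hyperplanes.  Then the reduced square-summable homology of `X` vanishes in all degrees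
different from `n / 2`. -/
theorem result {V A G : Type} [Group G] [MulAction G V] [MulAction G A] (X : CubeComplex V A)
    [∀ v, Fintype (X.nb v)] (hG : Acts X G) {n : ℕ} (hX : ∀ v, HomologySphere (X.link v) n)
    {i : ℕ} (hi : 2 * i ≠ n) : Pool.Agent.NPC.HomologyVanishes X i :=
  Pool.Agent.NPC.H30.t_npc V A G X hG i fun v => Pool.Agent.CD.H30.singer (hX v) i hi

end Pool.Agent.Results.MP_f80465_gt.CubicalManifolds
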