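import Pool.Agent.Helper35_HKN.Top

/-!
# The Singer conjecture for groups with hierarchies

`Hierarchy S G` is the smallest family of pairs of a set `S` of degrees and a group `G` which
contains the virtually special groups with Poincare duality (and some other groups) and is closed
under the operations of cutting along subgroups and putting mirrors, splittings, products,
extensions, finite index and duality; see the definition.  It contains the fundamental groups of
all closed aspherical manifolds with a Haken hierarchy.

We prove that the `L²`-Betti numbers of `G` vanish in the degrees in `S`.  For a closed aspherical
manifold of dimension `n` whose fundamental group `G` satisfies `Hierarchy {i | 2 * i ≠ n} G` this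
is the Singer conjecture.
-/

namespace Pool.Agent.Results.MP_f80465_gt.Hierarchies

open Pool.Agent.Glue Pool.Agent.FB Pool.Agent.HKN

/-- Let `Hierarchy S G`.  Let `C` be a free resolution of the integers over the integral group ring
of `G`, finitely generated and exact up to dimension `i`, for some `i` in `S`.  Then the `i`-th
`L²`-Betti number of `C` is zero. -/
theorem result {S : Set ℕ} {G : Type} [Group G] (hG : Hierarchy S G) {I : Type} [Fintype I]
    (C : Cells G I) {i : ℕ} (hC : Acyc C i) (hi : i ∈ S) : betti C i = 0 :=
  (All.hierarchy hG).2 I C i hC hi

end Pool.Agent.Results.MP_f80465_gt.Hierarchies
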