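import Pool.Agent.Helper30_RT.Fin

/-!
# The `L²`-Betti numbers of the manifolds of Davis' reflection trick

Let `X` be a compact aspherical manifold of dimension `n` with boundary, `Q` its fundamental group
and `L` a flag triangulation of the boundary of `X`.  Let `Γ` be the one-skeleton of the preimage of
`L` in the universal cover of `X`, a graph on which `Q` acts.  Reflecting `X` in the dual cells of
`L` we get a contractible manifold on which the semidirect product of the right-angled Coxeter group
of `Γ` with `Q` acts properly and cocompactly.  Its quotients by torsion-free subgroups `G` of finite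
index are closed aspherical manifolds `M`, which retract onto `X` (the reflection trick of Davis).
Here `X` can be a thickening of any finite aspherical complex, so `Q` is the fundamental group of an
arbitrary finite aspherical complex.

We compute the `L²`-Betti numbers of `M` in all degrees `i` with `2 i > n + 1` or `2 i < n - 1`: they
are those of `X`, multiplied by the index.  If `n` is even this gives all `L²`-Betti numbers outside
the middle dimension, and the Singer conjecture holds for `M` if and only if the `L²`-Betti numbers
of `X` vanish above the middle dimension.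
-/

namespace Pool.Agent.Results.MP_f80465_gt.ReflectionTrick

open Pool.Agent.VSing Pool.Agent.Glue Pool.Agent.FB Pool.Agent.HKN Pool.Agent.RT

/-- Let the group `Q` act on the graph `Γ`, freely and with finitely many orbits of vertices, such
that adjacent vertices are in different orbits.  Suppose that the links of the vertices of the flag
complex of `Γ` are generalized homology spheres of dimension `n - 2` over the field with two
elements (or full subcomplexes of such spheres).  Let `D` be a finite aspherical complex for `Q`, and
let `C` be a finite aspherical complex for a subgroup `G` of finite index in the semidirect product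
`E` of the right-angled Coxeter group of `Γ` with `Q`.  Then for all `i` with `2 i > n + 1` the `i`-th
`L²`-Betti number of `C` is the index of `G` times the `i`-th `L²`-Betti number of `D`.  If `C`
satisfies Poincare duality over the integers in dimension `n` the same holds for the `(n - i)`-th
`L²`-Betti number of `C`. -/
theorem result {Q V E G : Type} [Group Q] [Group E] [Group G] [MulAction Q V]
    {Γ : SimpleGraph V}
    (hΓ : ∀ (q : Q) (u v : V), Γ.Adj u v → Γ.Adj (q • u) (q • v))
    (hfree : ∀ (q : Q) (v : V), q • v = v → q = 1)
    (hfin : ∃ R : Finset V, ∀ v, ∃ r ∈ R, ∃ q : Q, q • r = v)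
    (horb : ∀ (q : Q) (v : V), ¬ Γ.Adj v (q • v)) {n : ℕ} (hn : 0 < n) (hlk : Links Γ (n - 1))
    {w : CoxGroup Γ →* E} {s : Q →* E} (hE : IsReflectionGroup Γ w s)
    {J : Type} [Fintype J] (D : Cells Q J) (hD : Aspherical D) (φ : G →* E) (hφ : Function.Injective φ) (hi : φ.range.FiniteIndex)
    {I : Type} [Fintype I] (C : Cells G I) (hC : Aspherical C) {i : ℕ} (hin : n + 1 < 2 * i) :
    betti C i = φ.range.index * betti D i ∧
      (DualityZ C n → i ≤ n → betti C (n - i) = φ.range.index * betti D i) := by
  have h := fin hΓ hfree hfin horb hn hlk hE D hD φ hφ hi C hC i hin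
  exact ⟨h, fun hCD hle => (All.t_pdz G I C n hC hCD i hle).symm.trans h⟩

/-- In even dimension the Singer conjecture holds for `C` if and only if the `L²`-Betti numbers of
`D` are zero above the middle dimension. -/
theorem singer_iff {Q V E G : Type} [Group Q] [Group E] [Group G] [MulAction Q V]
    {Γ : SimpleGraph V}
    (hΓ : ∀ (q : Q) (u v : V), Γ.Adj u v → Γ.Adj (q • u) (q • v))
    (hfree : ∀ (q : Q) (v : V), q • v = v → q = 1)
    (hfin : ∃ R : Finset V, ∀ v, ∃ r ∈ R, ∃ q : Q, q • r = v)
    (horb : ∀ (q : Q) (v : V), ¬ Γ.Adj v (q • v)) {k : ℕ} (hk : 0 < k)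
    (hlk : Links Γ (2 * k - 1)) {w : CoxGroup Γ →* E} {s : Q →* E}
    (hE : IsReflectionGroup Γ w s) {J : Type} [Fintype J] (D : Cells Q J) (hD : Aspherical D)
    (φ : G →* E) (hφ : Function.Injective φ) (hi : φ.range.FiniteIndex)
    {I : Type} [Fintype I] (C : Cells G I) (hC : Aspherical C) (hCD : DualityZ C (2 * k)) :
    (∀ i, i ≠ k → betti C i = 0) ↔ ∀ i, k < i → betti D i = 0 := by
  have h0 : (φ.range.index : ℝ) ≠ 0 := by exact_mod_cast hi.index_ne_zero
  constructor
  · intro h i hki
    have h1 := (result hΓ hfree hfin horb (by omega) hlk hE D hD φ hφ hi C hC (i := i) (by omega)).1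
    rw [h i (by omega)] at h1
    exact (mul_eq_zero.mp h1.symm).resolve_left h0
  · intro h i hik
    rcases Nat.lt_or_ge k i with h2 | h2
    · rw [(result hΓ hfree hfin horb (by omega) hlk hE D hD φ hφ hi C hC (i := i) (by omega)).1,
        h i h2, mul_zero]
    · have h3 := (result hΓ hfree hfin horb (by omega) hlk hE D hD φ hφ hi C hC (i := 2 * k - i)
        (by omega)).2 hCD (by omega)
      have h4 : 2 * k - (2 * k - i) = i := by omega
      rw [h4, h (2 * k - i) (by omega), mul_zero] at h3
      exact h3

/-- The Singer conjecture holds for `C` if `D` has dimension at most `k`, half of the dimension. -/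
theorem singer_of_dim {Q V E G : Type} [Group Q] [Group E] [Group G] [MulAction Q V]
    {Γ : SimpleGraph V}
    (hΓ : ∀ (q : Q) (u v : V), Γ.Adj u v → Γ.Adj (q • u) (q • v))
    (hfree : ∀ (q : Q) (v : V), q • v = v → q = 1)
    (hfin : ∃ R : Finset V, ∀ v, ∃ r ∈ R, ∃ q : Q, q • r = v)
    (horb : ∀ (q : Q) (v : V), ¬ Γ.Adj v (q • v)) {k : ℕ} (hk : 0 < k)
    (hlk : Links Γ (2 * k - 1)) {w : CoxGroup Γ →* E} {s : Q →* E}
    (hE : IsReflectionGroup Γ w s) {J : Type} [Fintype J] (D : Cells Q J) (hD : Aspherical D)
    (hDk : ∀ j, D.deg j ≤ k) (φ : G →* E) (hφ : Function.Injective φ) (hi : φ.range.FiniteIndex)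
    {I : Type} [Fintype I] (C : Cells G I) (hC : Aspherical C) (hCD : DualityZ C (2 * k)) {i : ℕ}
    (hik : i ≠ k) : betti C i = 0 :=
  (singer_iff hΓ hfree hfin horb hk hlk hE D hD φ hφ hi C hC hCD).mpr
    (fun i hi => betti_of_deg D i fun j hj => by
      have := hDk j
      omega) i hik

end Pool.Agent.Results.MP_f80465_gt.ReflectionTrick
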