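import Pool.Agent.Helper84_PBA.All
import Pool.Agent.Helper84_PBA.Contain
import Pool.Agent.Helper6_HF.Contain
import Pool.Agent.Helper52_CD.VFin

/-!
# The Singer conjecture for virtually residually poly-(bi-orderable or amenable) groups

Let `M` be a closed aspherical manifold of dimension `n` with fundamental group `G`.  Suppose that
`G` has a subgroup of finite index in which every nontrivial element survives in a quotient with a
finite subnormal series whose factors are bi-orderable, or amenable and locally indicable.  Then the
Singer conjecture holds for `M`: the `i`-th `L²`-Betti number of the universal cover of `M` is zero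
for all `i` with `2 i ≠ n`.

The manifold enters through the cellular chain complex of the universal cover of a finite CW complex
of dimension at most `n` which is homotopy equivalent to `M`.  This is a finite complex `C` of free
modules over the integral group ring of `G` and a resolution of the integers.  We use Poincare
duality only with coefficients modulo two.

The class contains the virtually bi-orderable groups, the virtually residually (amenable and locally
indicable) groups, the virtually residually poly-(infinite cyclic) groups and the virtually special
groups (see below).
-/

namespace Pool.Agent.Results.MP_f80465_gt.ResiduallyPoly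

open Pool.Agent.Glue Pool.Agent.FB Pool.Agent.VSing Pool.Agent.RBA

/-- Virtually residually poly-(infinite cyclic) groups belong to the class. -/
theorem of_virtuallyResiduallyPolyZ {G : Type} [Group G]
    (hG : Pool.Agent.RPZ.VirtuallyResiduallyPolyZ G) : VirtuallyResiduallyPoly G :=
  Pool.Agent.PBA.H84.of_polyZ hG

/-- Virtually special groups belong to the class. -/
theorem of_virtuallySpecial {G : Type} [Group G] (hG : VirtuallySpecial G) :
    VirtuallyResiduallyPoly G :=
  of_virtuallyResiduallyPolyZ (Pool.Agent.PBA.H84.polyZ_of_special hG)

/-- Groups with a subgroup of finite index that is bi-orderable, or amenable and locally indicable,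
belong to the class. -/
theorem of_factor {G : Type} [Group G] (G' : Subgroup G) (hf : G'.FiniteIndex)
    (hG : BiOrderable G' ∨ (Amenable G' ∧ LocallyIndicable G')) : VirtuallyResiduallyPoly G :=
  ⟨G', hf, Pool.Agent.PBA.H84.resPoly_of_factor hG⟩

/-- Let `G` be a group with a subgroup of finite index that is residually poly-(bi-orderable or
amenable and locally indicable), and let `C` be a finite aspherical complex over `G` which satisfies
Poincare duality modulo two in dimension `n`.  Then the `i`-th `L²`-Betti number of `C` is zero for
all `i` with `2 i ≠ n`. -/
theorem result {G : Type} [Group G] (hG : VirtuallyResiduallyPoly G) {I : Type} [Fintype I]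
    (C : Cells G I) {n : ℕ} (hC : Aspherical C) (hD : Duality C n) {i : ℕ} (hi : 2 * i ≠ n) :
    betti C i = 0 := by
  obtain ⟨G', hf, h⟩ := hG
  exact Pool.Agent.BO.H84.t_vib G G' hf
    (Pool.Agent.PBA.H84.t_fin G' (Pool.Agent.PBA.H84.resPolyBA_of h)) I C n hC
    (Pool.Agent.CD.Vir.pd2_of C n hD) i hi

end Pool.Agent.Results.MP_f80465_gt.ResiduallyPoly
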